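import Pool.Agent.Lib.MP_af4e44_co.GR.Main

set_option autoImplicit false

namespace Pool.Agent.Results.MP_af4e44_co.UpperBound288

/-- Some K4-free graph on at most 288 vertices has a monochromatic triangle in every
2-colouring of its edges. -/
theorem result :
    ∃ n : ℕ, n ≤ 288 ∧ ∃ G : SimpleGraph (Fin n), G.CliqueFree 4 ∧
      ∀ c : Fin n → Fin n → Bool, (∀ x y : Fin n, c x y = c y x) →
        ∃ a b d : Fin n, G.Adj a b ∧ G.Adj b d ∧ G.Adj a d ∧
          c a b = c b d ∧ c b d = c a d :=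
  ⟨288, le_rfl, Pool.Agent.Lib.MP_af4e44_co.GR.GG, Pool.Agent.Lib.MP_af4e44_co.GR.GG_free,
    Pool.Agent.Lib.MP_af4e44_co.GR.arrows⟩

end Pool.Agent.Results.MP_af4e44_co.UpperBound288
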